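import Pool.Agent.K1H59.VX.Stm

set_option autoImplicit false

namespace Pool.Agent.K1H60.VX

open MvPolynomial Pool.Agent.K1H59.VX

/-- value of the quadratic form -/
noncomputable def qf {m : ℕ} {A : Type} [CommRing A] (f : Fin (m + 1) → Fin (m + 1) → A)
    (u : Fin (m + 1) → ℤ) : A :=
  ∑ i, ∑ k, (u i : A) * (u k : A) * f i k

noncomputable def bf {m : ℕ} {A : Type} [CommRing A] (f : Fin (m + 1) → Fin (m + 1) → A)
    (u v : Fin (m + 1) → ℤ) : A :=
  ∑ i, ∑ k, (u i : A) * (v k : A) * f i k

lemma qf_eq {m : ℕ} {A : Type} [CommRing A] (f : Fin (m + 1) → Fin (m + 1) → A)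
    (u : Fin (m + 1) → ℤ) : qf f u = bf f u u := rfl

lemma bf_add_left {m : ℕ} {A : Type} [CommRing A] (f : Fin (m + 1) → Fin (m + 1) → A)
    (u v w : Fin (m + 1) → ℤ) : bf f (u + v) w = bf f u w + bf f v w := by
  simp only [bf, ← Finset.sum_add_distrib]
  refine Finset.sum_congr rfl fun i _ => Finset.sum_congr rfl fun k _ => ?_
  simp only [Pi.add_apply, Int.cast_add]; ring

lemma bf_add_right {m : ℕ} {A : Type} [CommRing A] (f : Fin (m + 1) → Fin (m + 1) → A)
    (u v w : Fin (m + 1) → ℤ) : bf f w (u + v) = bf f w u + bf f w v := by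
  simp only [bf, ← Finset.sum_add_distrib]
  refine Finset.sum_congr rfl fun i _ => Finset.sum_congr rfl fun k _ => ?_
  simp only [Pi.add_apply, Int.cast_add]; ring

lemma bf_neg_right {m : ℕ} {A : Type} [CommRing A] (f : Fin (m + 1) → Fin (m + 1) → A)
    (u w : Fin (m + 1) → ℤ) : bf f w (-u) = -bf f w u := by
  simp only [bf, ← Finset.sum_neg_distrib]
  refine Finset.sum_congr rfl fun i _ => Finset.sum_congr rfl fun k _ => ?_
  simp only [Pi.neg_apply, Int.cast_neg]; ring

lemma bf_neg_left {m : ℕ} {A : Type} [CommRing A] (f : Fin (m + 1) → Fin (m + 1) → A)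
    (u w : Fin (m + 1) → ℤ) : bf f (-u) w = -bf f u w := by
  simp only [bf, ← Finset.sum_neg_distrib]
  refine Finset.sum_congr rfl fun i _ => Finset.sum_congr rfl fun k _ => ?_
  simp only [Pi.neg_apply, Int.cast_neg]; ring

lemma bf_comm {m : ℕ} {A : Type} [CommRing A] (f : Fin (m + 1) → Fin (m + 1) → A)
    (hf : ∀ i k, f i k = f k i) (u v : Fin (m + 1) → ℤ) : bf f u v = bf f v u := by
  simp only [bf]
  rw [Finset.sum_comm]
  refine Finset.sum_congr rfl fun i _ => Finset.sum_congr rfl fun k _ => ?_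
  rw [hf k i]; ring

lemma bf_single {m : ℕ} {A : Type} [CommRing A] (f : Fin (m + 1) → Fin (m + 1) → A)
    (i k : Fin (m + 1)) : bf f (Pi.single i 1) (Pi.single k 1) = f i k := by
  simp only [bf]
  rw [Finset.sum_eq_single i, Finset.sum_eq_single k]
  · simp
  · intro b _ hb; simp [hb]
  · simp
  · intro b _ hb; simp [hb]
  · simp

lemma single_case {m : ℕ} {A : Type} [CommRing A] [IsDomain A] [CharZero A]
    (f : Fin (m + 1) → Fin (m + 1) → A) (hf : ∀ i k, f i k = f k i) (h : ∃ i k, f i k ≠ 0) :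
    ∃ u : Fin (m + 1) → ℤ, u 0 = 1 ∧ qf f u ≠ 0 := by
  by_contra hcon
  push Not at hcon
  set e : Fin (m + 1) → ℤ := Pi.single 0 1 with he
  have two : (2 : A) ≠ 0 := two_ne_zero
  -- for v with v 0 = 0
  have h0 : bf f e e = 0 := by
    have := hcon e (by simp [he])
    rwa [qf_eq] at this
  have hv : ∀ v : Fin (m + 1) → ℤ, v 0 = 0 → bf f e v = 0 ∧ bf f v v = 0 := by
    intro v hv
    have h1 := hcon (e + v) (by simp [he, hv])
    have h2 := hcon (e + -v) (by simp [he, hv])
    rw [qf_eq] at h1 h2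
    rw [bf_add_left, bf_add_right, bf_add_right] at h1 h2
    rw [bf_neg_left, bf_neg_left, bf_neg_right, bf_neg_right] at h2
    rw [bf_comm f hf v e] at h1 h2
    constructor
    · have : (2 : A) * (2 * bf f e v) = 0 := by linear_combination h1 - h2
      simpa [two] using this
    · have : (2 : A) * bf f v v = 0 := by linear_combination h1 + h2 - 2 * h0
      simpa [two] using this
  have hvw : ∀ v w : Fin (m + 1) → ℤ, v 0 = 0 → w 0 = 0 → bf f v w = 0 := by
    intro v w hv0 hw0
    have h1 := (hv (v + w) (by simp [hv0, hw0])).2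
    rw [bf_add_left, bf_add_right, bf_add_right, (hv v hv0).2, (hv w hw0).2,
      bf_comm f hf w v] at h1
    have : (2 : A) * bf f v w = 0 := by linear_combination h1
    simpa [two] using this
  obtain ⟨i, k, hik⟩ := h
  apply hik
  rw [← bf_single f i k]
  by_cases hi : i = 0
  · subst hi
    by_cases hk : k = 0
    · subst hk; exact h0
    · exact (hv _ (by simp [Ne.symm hk])).1
  · by_cases hk : k = 0
    · subst hk
      rw [bf_comm f hf]
      exact (hv _ (by simp [Ne.symm hi])).1
    · exact hvw _ _ (by simp [Ne.symm hi]) (by simp [Ne.symm hk])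

/-- the values on a line are those of a polynomial -/
noncomputable def lineP {m : ℕ} {A : Type} [CommRing A] (f : Fin (m + 1) → Fin (m + 1) → A)
    (u v : Fin (m + 1) → ℤ) : Polynomial A :=
  Polynomial.C (bf f u u) + Polynomial.X * Polynomial.C (bf f u v + bf f v u)
    + Polynomial.X ^ 2 * Polynomial.C (bf f v v)

lemma bf_smul_left {m : ℕ} {A : Type} [CommRing A] (f : Fin (m + 1) → Fin (m + 1) → A)
    (s : ℤ) (u w : Fin (m + 1) → ℤ) : bf f (s • u) w = s * bf f u w := by
  simp only [bf, Finset.mul_sum]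
  refine Finset.sum_congr rfl fun i _ => Finset.sum_congr rfl fun k _ => ?_
  simp only [Pi.smul_apply, smul_eq_mul, Int.cast_mul]; ring

lemma bf_smul_right {m : ℕ} {A : Type} [CommRing A] (f : Fin (m + 1) → Fin (m + 1) → A)
    (s : ℤ) (u w : Fin (m + 1) → ℤ) : bf f w (s • u) = s * bf f w u := by
  simp only [bf, Finset.mul_sum]
  refine Finset.sum_congr rfl fun i _ => Finset.sum_congr rfl fun k _ => ?_
  simp only [Pi.smul_apply, smul_eq_mul, Int.cast_mul]; ring

lemma lineP_eval {m : ℕ} {A : Type} [CommRing A] (f : Fin (m + 1) → Fin (m + 1) → A)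
    (u v : Fin (m + 1) → ℤ) (s : ℕ) :
    (lineP f u v).eval (s : A) = qf f (u + (s : ℤ) • v) := by
  rw [qf_eq, bf_add_left, bf_add_right, bf_add_right, bf_smul_left, bf_smul_right, bf_smul_left,
    bf_smul_right]
  simp only [lineP, Polynomial.eval_add, Polynomial.eval_mul, Polynomial.eval_pow,
    Polynomial.eval_C, Polynomial.eval_X, Int.cast_natCast]
  ring

lemma finite_zeros {m : ℕ} {A : Type} [CommRing A] [IsDomain A] [CharZero A]
    (f : Fin (m + 1) → Fin (m + 1) → A) (u v : Fin (m + 1) → ℤ)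
    (h : ∃ s : ℕ, qf f (u + (s : ℤ) • v) ≠ 0) :
    {s : ℕ | qf f (u + (s : ℤ) • v) = 0}.Finite := by
  classical
  have hP : lineP f u v ≠ 0 := by
    obtain ⟨s, hs⟩ := h
    intro h0
    apply hs
    rw [← lineP_eval, h0, Polynomial.eval_zero]
  have hfin : {a : A | a ∈ (lineP f u v).roots.toFinset}.Finite :=
    Finset.finite_toSet _
  refine Set.Finite.subset (hfin.preimage (f := fun s : ℕ => (s : A))
    (fun a _ b _ hab => Nat.cast_injective hab)) ?_
  intro s hs
  show ((s : A)) ∈ (lineP f u v).roots.toFinset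
  rw [Multiset.mem_toFinset]
  rw [Polynomial.mem_roots hP]
  rw [Polynomial.IsRoot.def, lineP_eval]
  exact hs

theorem sel : S_SEL := by
  intro m ι _ A _ _ _ f hf hne
  classical
  suffices h : ∀ J : Finset ι, ∃ u : Fin (m + 1) → ℤ, u 0 = 1 ∧ ∀ a ∈ J, qf (f a) u ≠ 0 by
    obtain ⟨u, hu0, hu⟩ := h Finset.univ
    exact ⟨u, hu0, fun a => hu a (Finset.mem_univ a)⟩
  intro J
  induction J using Finset.induction_on with
  | empty => exact ⟨Pi.single 0 1, by simp, by simp⟩
  | insert a J ha ih =>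
    obtain ⟨u, hu0, hu⟩ := ih
    obtain ⟨u', hu'0, hu'⟩ := single_case (f a) (hf a) (hne a)
    have hfin : (⋃ b ∈ insert a J, {s : ℕ | qf (f b) (u + (s : ℤ) • (u' - u)) = 0}).Finite := by
      refine Set.Finite.biUnion (Finset.finite_toSet _) ?_
      intro b hb
      apply finite_zeros
      rcases Finset.mem_insert.1 (Finset.mem_coe.1 hb) with rfl | hb
      · exact ⟨1, by simpa using hu'⟩
      · exact ⟨0, by simpa using hu b hb⟩
    obtain ⟨s, hs⟩ := hfin.exists_notMem
    refine ⟨u + (s : ℤ) • (u' - u), by simp [hu0, hu'0], ?_⟩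
    intro b hb hb0
    exact hs (Set.mem_biUnion (Finset.mem_coe.2 hb) hb0)

/-! ### the shear -/

noncomputable def shA (R : Type) [CommRing R] {n : ℕ} (p : Fin n) (c : Fin n → ℤ) :
    MvPolynomial (Fin n) R →ₐ[R] MvPolynomial (Fin n) R :=
  aeval (fun i => X i + C (c i : R) * X p)

lemma shA_X (R : Type) [CommRing R] {n : ℕ} (p : Fin n) (c : Fin n → ℤ) (i : Fin n) :
    shA R p c (X i) = X i + C (c i : R) * X p := by
  simp [shA]

lemma shA_comp (R : Type) [CommRing R] {n : ℕ} (p : Fin n) (c : Fin n → ℤ) (hc : c p = 0) :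
    (shA R p c).comp (shA R p (-c)) = AlgHom.id R _ := by
  apply MvPolynomial.algHom_ext
  intro i
  rw [AlgHom.comp_apply, shA_X, map_add, map_mul, shA_X, shA_X, hc]
  rw [show (shA R p c) (C ((-c) i : R)) = C ((-c) i : R) from by
    rw [← MvPolynomial.algebraMap_eq]; exact AlgHom.commutes _ _]
  simp

/-- the shear as an automorphism -/
noncomputable def shE (R : Type) [CommRing R] {n : ℕ} (p : Fin n) (c : Fin n → ℤ) (hc : c p = 0) :
    MvPolynomial (Fin n) R ≃ₐ[R] MvPolynomial (Fin n) R :=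
  AlgEquiv.ofAlgHom (shA R p c) (shA R p (-c)) (shA_comp R p c hc)
    (by
      have := shA_comp R p (-c) (by simp [hc])
      rwa [neg_neg] at this)

lemma toQ_sh {n : ℕ} (p : Fin n) (c : Fin n → ℤ) (hc : c p = 0) (F : MvPolynomial (Fin n) ℤ) :
    toQ (sh p c F) = shE ℚ p c hc (toQ F) := by
  have h1 : shE ℚ p c hc (toQ F) = shA ℚ p c (toQ F) := rfl
  rw [h1]
  have h2 : ((map (Int.castRingHom ℚ)).comp
      ((shA ℤ p c : MvPolynomial (Fin n) ℤ →+* MvPolynomial (Fin n) ℤ)) :
        MvPolynomial (Fin n) ℤ →+* MvPolynomial (Fin n) ℚ)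
      = ((shA ℚ p c : MvPolynomial (Fin n) ℚ →+* MvPolynomial (Fin n) ℚ)).comp
        (map (Int.castRingHom ℚ)) := by
    apply MvPolynomial.ringHom_ext
    · intro r
      simp [shA]
    · intro i
      simp [shA]
  have := RingHom.congr_fun h2 F
  simp only [RingHom.comp_apply] at this
  exact this

lemma pderiv_sh {n : ℕ} (p : Fin n) (c : Fin n → ℤ) (F : MvPolynomial (Fin n) ℤ) (k : Fin n) :
    pderiv k (sh p c F) = ∑ i, sh p c (pderiv i F) * pderiv k (X i + C (c i) * X p) := by
  have hs : ∀ G : MvPolynomial (Fin n) ℤ, sh p c G = shA ℤ p c G := by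
    intro G; simp [sh, shA]
  simp only [hs]
  induction F using MvPolynomial.induction_on with
  | C a =>
    rw [show (shA ℤ p c) (C a) = C a from by
      rw [← MvPolynomial.algebraMap_eq]; exact AlgHom.commutes _ _]
    simp
  | add F G hF hG =>
    simp only [map_add, hF, hG, add_mul, Finset.sum_add_distrib]
  | mul_X F j hF =>
    rw [map_mul, Derivation.leibniz, hF, shA_X]
    simp only [Derivation.leibniz, smul_eq_mul, map_add, map_mul, shA_X, pderiv_X, add_mul]
    rw [Finset.sum_add_distrib]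
    congr 1
    · rw [Finset.sum_eq_single j]
      · simp
      · intro b _ hb
        simp [Pi.single_apply, Ne.symm hb]
      · simp
    · rw [Finset.mul_sum, Finset.mul_sum, ← Finset.sum_add_distrib]
      refine Finset.sum_congr rfl fun i _ => ?_
      simp only [pderiv_C, Int.cast_id]
      ring

theorem shear : S_SHEAR := by
  intro n p c hc
  have hs : ∀ G : MvPolynomial (Fin n) ℤ, sh p c G = shA ℤ p c G := by
    intro G; simp [sh, shA]
  refine ⟨?_, ?_, ?_, ?_, ?_, ?_⟩
  · intro F d hF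
    have := hF.aeval (fun i => X i + C (c i) * X p) (n := 1) (fun i => by
      refine (isHomogeneous_X ℤ i).add ?_
      have := (isHomogeneous_C (Fin n) (c i)).mul (isHomogeneous_X ℤ p)
      simpa using this)
    simpa [sh] using this
  · intro K _ z F
    have h : (aeval z).comp (aeval (fun i => X i + C (c i) * X p) :
        MvPolynomial (Fin n) ℤ →ₐ[ℤ] MvPolynomial (Fin n) ℤ)
        = (aeval (fun i => z i + (c i : K) * z p) : MvPolynomial (Fin n) ℤ →ₐ[ℤ] K) := by
      apply MvPolynomial.algHom_ext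
      intro i
      simp
    exact AlgHom.congr_fun h F
  · intro F k hk
    rw [pderiv_sh, Finset.sum_eq_single k]
    · simp [pderiv_X, Pi.single_apply, hk, Ne.symm hk]
    · intro b _ hb
      simp [pderiv_X, Pi.single_apply, hk, Ne.symm hk, hb, Ne.symm hb]
    · simp
  · intro F
    rw [pderiv_sh, hs (pderiv p F + ∑ i, C (c i) * pderiv i F), map_add, map_sum]
    simp only [map_add, mul_add, Finset.sum_add_distrib]
    congr 1
    · rw [Finset.sum_eq_single p]
      · simp [hs]
      · intro b _ hb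
        simp [pderiv_X, Pi.single_apply, hb, Ne.symm hb]
      · simp
    · refine Finset.sum_congr rfl fun i _ => ?_
      rw [map_mul (shA ℤ p c), hs]
      rw [show (shA ℤ p c) (C (c i)) = C (c i) from by
        rw [← MvPolynomial.algebraMap_eq]; exact AlgHom.commutes _ _]
      simp [Derivation.leibniz]
      ring
  · intro F hF
    rw [toQ_sh p c hc]
    exact (MulEquiv.irreducible_iff (shE ℚ p c hc)).2 hF
  · intro F G h
    rw [toQ_sh p c hc, toQ_sh p c hc] at h
    exact (map_dvd_iff (shE ℚ p c hc)).1 h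

end Pool.Agent.K1H60.VX
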